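import Mathlib

namespace Pool.Agent.Results.MP_ec79a8_nt.Full
open Finset Nat

/-- the sequence `a(n)` -/
def a (n : ℕ) : ℕ := ∑ j ∈ range (n + 1), n.choose j * (n - j).choose j * (n + j).choose j

theorem ch1 (n k : ℕ) : (n.choose k : ℚ) = (n + 1).choose k * (n + 1 - k) / (n + 1) := by
  rw [eq_div_iff (by positivity)]
  rcases le_or_gt k (n + 1) with h | h
  · exact_mod_cast choose_mul_succ_eq n k
  · simp [choose_eq_zero_of_lt h, choose_eq_zero_of_lt (by omega : n < k)]

theorem ch2 (n k : ℕ) : (n.choose (k + 1) : ℚ) = n.choose k * (n - k) / (k + 1) := by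
  rw [eq_div_iff (by positivity)]
  rcases le_or_gt k n with h | h
  · exact_mod_cast choose_succ_right_eq n k
  · simp [choose_eq_zero_of_lt h, choose_eq_zero_of_lt (by omega : n < k + 1)]

theorem ch3 (n k : ℕ) : (n.choose k : ℚ) = (n + 1).choose (k + 1) * (k + 1) / (n + 1) := by
  rw [eq_div_iff (by positivity), mul_comm]
  exact_mod_cast add_one_mul_choose_eq n k

theorem cb (j : ℕ) : (centralBinom (j + 1) : ℚ) = 2 * (2 * j + 1) * centralBinom j / (j + 1) := by
  rw [eq_div_iff (by positivity), mul_comm]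
  exact_mod_cast succ_mul_centralBinom_succ j

theorem ident (s : ℕ) :
    ∑ k ∈ range (2 * s + 2), (-1 : ℚ) ^ k * centralBinom k * (3 * s + 2).choose (s + 1 + k) = 0 := by
  induction s with
  | zero => simp [sum_range_succ, centralBinom]
  | succ s ih =>
    let g : ℕ → ℚ := fun k => (-1) ^ k * centralBinom k * (3 * s + 5).choose (s + 2 + k)
      * (k * (s + 2 + k) * (1 - 3 * k))
    have h : ∑ k ∈ range (2 * s + 4), (g (k + 1) - g k) = 0 := by
      rw [sum_range_sub]
      simp [g, choose_eq_zero_of_lt (by omega : 3 * s + 5 < s + 2 + (2 * s + 4))]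
    have ih' : ∑ k ∈ range (2 * s + 4),
        (-1 : ℚ) ^ k * centralBinom k * (3 * s + 2).choose (s + 1 + k) = 0 := by
      rw [sum_range_succ, sum_range_succ, ih, choose_eq_zero_of_lt (by omega),
        choose_eq_zero_of_lt (by omega)]
      simp
    apply mul_left_cancel₀ (by positivity : (3 * s + 4 : ℚ) * (3 * s + 5) * (4 * s + 6) ≠ 0)
    rw [show 2 * (s + 1) + 2 = 2 * s + 4 by ring, mul_zero]
    have e := congrArg (9 * (3 * s + 3 : ℚ) * (3 * s + 4) * (3 * s + 5) * ·) ih'
    simp only [mul_zero] at e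
    rw [← add_zero 0]
    nth_rewrite 1 [← h]
    rw [← e, mul_sum, mul_sum, ← sum_add_distrib]
    refine sum_congr rfl fun k _ => ?_
    simp only [g]
    rw [show s + 2 + (k + 1) = s + 2 + k + 1 by ring, ch2, cb, ch3 (3 * s + 2), ch1 (3 * s + 2 + 1),
      ch1 (3 * s + 2 + 1 + 1), pow_succ, show s + 1 + k + 1 = s + 2 + k by ring,
      show s + 1 + 1 + k = s + 2 + k by ring, show 3 * (s + 1) + 2 = 3 * s + 5 by ring]
    push_cast
    field_simp
    ring

theorem sum_a (N : ℕ) : ∑ n ∈ range N, a n
    = ∑ j ∈ range N, centralBinom j * ((3 * j).choose j * (N + j).choose (3 * j + 1)) := by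
  induction N with
  | zero => simp
  | succ N ih =>
    have e : a N = ∑ j ∈ range (N + 1), centralBinom j * ((3 * j).choose j * (N + j).choose (3 * j)) := by
      refine sum_congr rfl fun j hj => ?_
      have hj := mem_range.mp hj
      rcases le_or_gt (2 * j) N with h | h
      · have h1 := choose_mul (n := N + j) (k := 3 * j) (s := j) (by omega)
        have h2 := choose_mul (n := N) (k := 2 * j) (s := j) (by omega)
        rw [show N + j - j = N by omega, show 3 * j - j = 2 * j by omega] at h1
        rw [show 2 * j - j = j by omega] at h2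
        rw [← h2, mul_comm ((3 * j).choose j), h1, centralBinom_eq_two_mul_choose]
        ring
      · rw [choose_eq_zero_of_lt (by omega : N - j < j),
          choose_eq_zero_of_lt (by omega : N + j < 3 * j)]
        simp
    rw [sum_range_succ, ih, e]
    have : ∑ j ∈ range N, centralBinom j * ((3 * j).choose j * (N + j).choose (3 * j + 1))
        = ∑ j ∈ range (N + 1), centralBinom j * ((3 * j).choose j * (N + j).choose (3 * j + 1)) := by
      rw [sum_range_succ, choose_eq_zero_of_lt (by omega : N + N < 3 * N + 1)]; simp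
    rw [this, ← sum_add_distrib]
    refine sum_congr rfl fun j _ => ?_
    rw [show N + 1 + j = N + j + 1 by ring, Nat.choose_succ_succ']
    ring

section
variable {p : ℕ} [hp : Fact p.Prime]

theorem ne0 (k : ℕ) (h0 : 0 < k) (h1 : k < p) : (k : ZMod p) ≠ 0 :=
  fun h2 => absurd (le_of_dvd h0 ((ZMod.natCast_eq_zero_iff _ _).mp h2)) (by omega)

theorem neg_ch (n b k : ℕ) (h : n + b + 1 = p) (hk : k < p) :
    (n.choose k : ZMod p) = (-1) ^ k * (b + k).choose k := by
  induction k with
  | zero => simp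
  | succ k ih =>
    apply mul_left_cancel₀ (ne0 (k + 1) (by omega) hk)
    have h0 : (n + b + 1 : ZMod p) = 0 := by
      have := ZMod.natCast_self p
      rw [← congrArg (Nat.cast : ℕ → ZMod p) h] at this
      exact_mod_cast this
    have h1 : ((n + 1).choose (k + 1) : ZMod p) = n.choose k + n.choose (k + 1) := by
      exact_mod_cast congrArg _ (Nat.choose_succ_succ' n k)
    have h2 : ((n + 1) * n.choose k : ZMod p) = (n + 1).choose (k + 1) * (k + 1) := by
      exact_mod_cast congrArg _ (add_one_mul_choose_eq n k)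
    have h3 : ((b + k + 1) * (b + k).choose k : ZMod p) = (b + (k + 1)).choose (k + 1) * (k + 1) := by
      exact_mod_cast congrArg _ (add_one_mul_choose_eq (b + k) k)
    have ih := ih (by omega)
    push_cast
    linear_combination -(k + 1) * h1 - h2 - (-1) ^ k * h3 + (n - k) * ih
      + (-1) ^ k * ((b + k).choose k) * h0

theorem pos_ch (j : ℕ) (hj : j < p) : ((p + j).choose j : ZMod p) = 1 := by
  induction j with
  | zero => simp
  | succ j ih =>
    apply mul_left_cancel₀ (ne0 (j + 1) (by omega) hj)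
    have h3 : ((p + j + 1) * (p + j).choose j : ZMod p) = (p + (j + 1)).choose (j + 1) * (j + 1) := by
      exact_mod_cast congrArg _ (add_one_mul_choose_eq (p + j) j)
    rw [ih (by omega), ZMod.natCast_self] at h3
    push_cast
    linear_combination -h3
end

theorem main (t p : ℕ) (hp : p.Prime) (hpe : p = 6 * t + 5) : (p : ℤ) ^ 2 ∣
    centralBinom (2 * t + 2) * (∑ k ∈ range p, a k : ℕ) - 2 * p := by
  haveI := Fact.mk hp
  have hI := ident (2 * t + 1)
  rw [show 3 * (2 * t + 1) + 2 = 6 * t + 5 by ring, show 2 * (2 * t + 1) + 2 = 4 * t + 3 + 1 by ring,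
    show 2 * t + 1 + 1 = 2 * t + 2 by ring, ← hpe] at hI
  have p0 : (6 * t + 5 : ZMod p) = 0 := by
    have := ZMod.natCast_self p
    rw [congrArg (Nat.cast : ℕ → ZMod p) hpe] at this
    exact_mod_cast this
  have nd : ∀ j, j < 4 * t + 3 → ¬ p ∣ 3 * j + 1 := by
    rintro j hj ⟨c, hc⟩
    rcases c with _ | _ | c
    · omega
    · omega
    · nlinarith
  have hU : ∀ j, (3 * j + 1) * ((3 * j).choose j * (p + j).choose (3 * j + 1))
      = p * ((p + j).choose j * (6 * t + 4).choose (2 * j)) := by
    intro j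
    have h1 := choose_mul_succ_eq (3 * j) j
    have h2 := choose_mul (n := p + j) (k := 3 * j + 1) (s := j) (by omega)
    have h3 := add_one_mul_choose_eq (6 * t + 4) (2 * j)
    rw [show 3 * j + 1 - j = 2 * j + 1 by omega] at h1 h2
    rw [show p + j - j = p by omega] at h2
    rw [show 6 * t + 4 + 1 = p by omega] at h3
    zify at h1 h2 h3 ⊢
    linear_combination ((p + j).choose (3 * j + 1) : ℤ) * h1 + (2 * j + 1) * h2
      - ((p + j).choose j : ℤ) * h3
  have hW : ∀ j, ∃ w : ℕ, j < 4 * t + 3 → (3 * j).choose j * (p + j).choose (3 * j + 1) = p * w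
      ∧ (2 * j < p → (3 * j + 1 : ZMod p) * w = 1) := by
    intro j
    by_cases hj : j < 4 * t + 3
    · obtain ⟨w, hw⟩ := (hp.dvd_mul.mp ⟨_, hU j⟩).resolve_left (nd j hj)
      refine ⟨w, fun _ => ⟨hw, fun h2 => ?_⟩⟩
      have h := hU j
      rw [hw, mul_left_comm, mul_right_inj' hp.ne_zero] at h
      have h' := congrArg (Nat.cast : ℕ → ZMod p) h
      push_cast at h'
      rw [h', pos_ch j (by omega), neg_ch (6 * t + 4) 0 (2 * j) (by omega) h2]
      simp
    · exact ⟨0, fun h => absurd h hj⟩
  have hY : ∀ j, ∃ y : ℕ, j < 4 * t + 3 → p.choose (2 * t + 2 + j) = p * y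
      ∧ (3 * j + 1 : ZMod p) * y = -3 * (-1) ^ j := by
    intro j
    by_cases hj : j < 4 * t + 3
    · obtain ⟨y, hy⟩ := hp.dvd_choose_self (k := 2 * t + 2 + j) (by omega) (by omega)
      refine ⟨y, fun _ => ⟨hy, ?_⟩⟩
      have h := add_one_mul_choose_eq (6 * t + 4) (2 * t + 1 + j)
      rw [show 6 * t + 4 + 1 = p by omega, show 2 * t + 1 + j + 1 = 2 * t + 2 + j by ring, hy,
        mul_assoc, mul_right_inj' hp.ne_zero] at h
      have h' := congrArg (Nat.cast : ℕ → ZMod p) h
      push_cast at h'
      rw [neg_ch (6 * t + 4) 0 _ (by omega) (by omega), zero_add, choose_self, pow_add, pow_succ,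
        pow_mul] at h'
      simp only [neg_one_sq, one_pow] at h'
      push_cast at h'
      linear_combination -3 * h' - y * p0
    · exact ⟨0, fun h => absurd h hj⟩
  choose w hw using hW
  choose y hy using hY
  set Z : ℤ := ∑ k ∈ range (4 * t + 3), (-1) ^ k * centralBinom k * y k with hZ
  have e1 : (centralBinom (4 * t + 3) : ℤ) = p * Z := by
    rw [sum_range_succ, show 2 * t + 2 + (4 * t + 3) = p by omega, choose_self,
      (show Odd (4 * t + 3) from ⟨2 * t + 1, by ring⟩).neg_one_pow] at hI
    have : (p : ℚ) * Z = ∑ k ∈ range (4 * t + 3),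
        (-1 : ℚ) ^ k * centralBinom k * p.choose (2 * t + 2 + k) := by
      rw [hZ]
      push_cast
      rw [mul_sum]
      refine sum_congr rfl fun k hk => ?_
      rw [(hy k (mem_range.mp hk)).1]
      push_cast
      ring
    have h : (centralBinom (4 * t + 3) : ℚ) = p * Z := by
      rw [this]; push_cast at hI; linear_combination -hI
    exact_mod_cast h
  have e2 : (centralBinom (2 * t + 2) * Z : ZMod p) = -6 := by
    have h := choose_mul (n := 2 * (4 * t + 3)) (k := p) (s := 4 * t + 3) (by omega)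
    rw [← centralBinom_eq_two_mul_choose, show 2 * (4 * t + 3) - (4 * t + 3) = 4 * t + 3 by omega,
      show p - (4 * t + 3) = 2 * t + 2 by omega,
      choose_symm_of_eq_add (show p = 4 * t + 3 + (2 * t + 2 + 0) by omega), (hy 0 (by omega)).1,
      show 2 * (4 * t + 3) = p + (2 * t + 1) by omega, choose_symm_add] at h
    zify at h
    rw [e1, mul_left_comm, mul_assoc, mul_right_inj' (by exact_mod_cast hp.ne_zero)] at h
    have h' := congrArg (Int.cast : ℤ → ZMod p) h
    push_cast at h'
    rw [pos_ch _ (by omega), neg_ch (4 * t + 3) (2 * t + 1) _ (by omega) (by omega),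
      (show Even (2 * t + 2) from ⟨t + 1, by ring⟩).neg_one_pow] at h'
    have h2 : (centralBinom (2 * t + 2) : ZMod p) = 2 * (2 * t + 1 + (2 * t + 2)).choose (2 * t + 2) := by
      rw [centralBinom_eq_two_mul_choose, show 2 * (2 * t + 2) = 2 * t + 1 + (2 * t + 2) + 1 by ring,
        Nat.choose_succ_succ', choose_symm_add]
      push_cast
      ring
    have h3 := (hy 0 (by omega)).2
    push_cast at h3
    linear_combination Z * h2 - 2 * h' + 2 * h3
  have e3 : ∑ k ∈ range p, a k = p * ∑ j ∈ range (4 * t + 3), centralBinom j * w j := by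
    rw [sum_a, mul_sum, ← sum_subset (range_subset_range.mpr (by omega : 4 * t + 3 ≤ p))]
    · refine sum_congr rfl fun j hj => ?_
      rw [(hw j (mem_range.mp hj)).1]; ring
    · intro j _ hj
      rw [choose_eq_zero_of_lt (by simp at hj; omega : p + j < 3 * j + 1)]; simp
  have e4 : (3 * ∑ j ∈ range (4 * t + 3), centralBinom j * w j + Z : ZMod p) = 0 := by
    rw [hZ]
    push_cast
    rw [mul_sum, ← sum_add_distrib]
    refine sum_eq_zero fun j hj => ?_
    have hj := mem_range.mp hj
    rcases lt_or_ge (2 * j) p with h | h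
    · apply mul_left_cancel₀ (a := (3 * j + 1 : ZMod p))
      · intro h0
        exact nd j hj ((ZMod.natCast_eq_zero_iff _ _).mp (by exact_mod_cast h0))
      · have h2 : (-1 : ZMod p) ^ j * (-1) ^ j = 1 := by
          rw [← pow_add, (Even.add_self j).neg_one_pow]
        linear_combination 3 * centralBinom j * (hw j hj).2 h
          + (-1) ^ j * centralBinom j * (hy j hj).2 - 3 * centralBinom j * h2
    · rw [centralBinom_eq_two_mul_choose, (ZMod.natCast_eq_zero_iff _ _).mpr
        (hp.dvd_choose (by omega) (by omega) h)]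
      simp
  have e5 : (p : ℤ) ∣ centralBinom (2 * t + 2)
      * (∑ j ∈ range (4 * t + 3), centralBinom j * w j : ℕ) - 2 := by
    rw [← ZMod.intCast_zmod_eq_zero_iff_dvd]
    apply mul_left_cancel₀ (ne0 (p := p) 3 (by omega) (by omega))
    push_cast at e4 ⊢
    linear_combination centralBinom (2 * t + 2) * e4 - e2
  obtain ⟨c, hc⟩ := e5
  refine ⟨c, ?_⟩
  rw [e3, cast_mul]
  linear_combination p * hc

theorem result (p : ℕ) (hp : p.Prime) (h3 : p % 3 = 2) :
    (p : ℤ) ^ 2 ∣ (∑ k ∈ range p, (a k : ℚ)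
      - 2 * p / ((2 * ((p + 1) / 3)).choose ((p + 1) / 3) : ℚ)).num := by
  rcases hp.eq_two_or_odd with rfl | h2
  · simp [a, sum_range_succ]; norm_num
  obtain ⟨t, rfl⟩ : ∃ t, p = 6 * t + 5 := ⟨p / 6, by omega⟩
  rw [show (6 * t + 5 + 1) / 3 = 2 * t + 2 by omega, ← centralBinom_eq_two_mul_choose]
  set x : ℚ := _ - _ with hx
  have c0 : (centralBinom (2 * t + 2) : ℚ) ≠ 0 := by exact_mod_cast centralBinom_ne_zero _
  have e : x.num * (centralBinom (2 * t + 2) : ℤ) = (centralBinom (2 * t + 2)
      * (∑ k ∈ range (6 * t + 5), a k : ℕ) - 2 * (6 * t + 5 : ℕ)) * x.den := by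
    have : (x.num : ℚ) * centralBinom (2 * t + 2) = (centralBinom (2 * t + 2)
      * (∑ k ∈ range (6 * t + 5), a k : ℕ) - 2 * (6 * t + 5 : ℕ)) * x.den := by
      rw [← Rat.mul_den_eq_num]
      nth_rewrite 1 [hx]
      push_cast
      field_simp
    exact_mod_cast this
  have hc : IsCoprime (((6 * t + 5 : ℕ) : ℤ) ^ 2) (centralBinom (2 * t + 2)) := by
    refine IsCoprime.pow_left (Nat.isCoprime_iff_coprime.mpr ((hp.coprime_iff_not_dvd).mpr ?_))
    intro h
    have := hp.dvd_factorial.mp (h.trans (Dvd.intro _ (by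
      rw [centralBinom_eq_two_mul_choose, ← mul_assoc]
      exact choose_mul_factorial_mul_factorial (by omega : 2 * t + 2 ≤ 2 * (2 * t + 2)))))
    omega
  exact hc.dvd_of_dvd_mul_right (e ▸ (main t _ hp rfl).mul_right _)

end Pool.Agent.Results.MP_ec79a8_nt.Full
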